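import Mathlib
import Pool.Agent.Helper917.VecL2
import Pool.Agent.Helper917.HardyDefs
import Pool.Agent.Helper917.HardySeq
import Pool.Agent.Helper917.Collig
import Pool.Agent.Helper917.ColligBd
import Pool.Agent.Helper917.ModelSp
import Pool.Agent.Helper917.ModelMain
import Pool.Agent.Helper917.StarOuter
import Pool.Agent.Helper917.ConcreteColl
import Pool.Agent.Helper917.SymBasic
import Pool.Agent.Helper917.SymPure
import Pool.Agent.Helper917.Moment
import Pool.Agent.Helper917.SymBd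
import Pool.Agent.Helper917.SymPhi

set_option autoImplicit false

open MeasureTheory AddCircle Filter Topology
open scoped ComplexConjugate ENNReal InnerProductSpace InnerProduct

namespace Pool.Agent.Results.MP_8b2208_an.Disproof

/-! ### Definitions used in the statement -/

instance factOne : Fact ((0 : ℝ) < 1) := ⟨zero_lt_one⟩

/-- The unit circle, parametrised as `ℝ/ℤ`: the class of `t` stands for `ζ = exp(2πit)`, which is
`fourier 1 t`. -/
abbrev Tor : Type := AddCircle (1 : ℝ)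

/-- `L²(𝕋, E)` with respect to normalised Lebesgue measure. -/
abbrev LTwo (E : Type) [NormedAddCommGroup E] : Type := Lp E 2 (haarAddCircle : Measure Tor)

/-- The Hardy space `H²(E)`, as the set of all functions in `L²(𝕋, E)` whose Fourier coefficients
of negative index vanish. -/
def hardy (E : Type) [NormedAddCommGroup E] [InnerProductSpace ℂ E] : Set (LTwo E) :=
  {f | ∀ n : ℤ, n < 0 → fourierCoeff f n = 0}

section defs

variable {E F : Type} [NormedAddCommGroup E] [InnerProductSpace ℂ E] [CompleteSpace E]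
  [NormedAddCommGroup F] [InnerProductSpace ℂ F] [CompleteSpace F]

/-- `θ` is a bounded analytic function on the unit disc with values in the bounded operators
`E → F`, its (strong, radial) boundary values are given by `Θ`, and `θ` is inner: the boundary
values are isometries almost everywhere. -/
structure InnerFun (θ : ℂ → E →L[ℂ] F) (Θ : Tor → E →L[ℂ] F) : Prop where
  analytic : DifferentiableOn ℂ θ (Metric.ball 0 1)
  bounded : ∃ C : ℝ, ∀ z ∈ Metric.ball (0 : ℂ) 1, ‖θ z‖ ≤ C
  boundary : ∀ᵐ t ∂(haarAddCircle : Measure Tor), ∀ e : E,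
    Tendsto (fun r : ℝ => θ (r * fourier 1 t) e) (𝓝[<] 1) (𝓝 (Θ t e))
  isometric : ∀ᵐ t ∂(haarAddCircle : Measure Tor), ∀ e : E, ‖Θ t e‖ = ‖e‖

/-- `θ` is `*`-outer: for `θ~(z) = θ(z̄)*`, whose boundary function is `t ↦ Θ(-t)*`, the set
`θ~ H²(F)` is dense in `H²(E)`. -/
def StarOuterFun (Θ : Tor → E →L[ℂ] F) : Prop :=
  ∀ f ∈ hardy E, f ∈ closure {g : LTwo E | ∃ u ∈ hardy F,
    g =ᵐ[(haarAddCircle : Measure Tor)] fun t => ContinuousLinearMap.adjoint (Θ (-t)) (u t)}

/-- The model space `K_θ = H²(F) ⊖ θ H²(E)`. -/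
def modelK (Θ : Tor → E →L[ℂ] F) : Set (LTwo F) :=
  {x | x ∈ hardy F ∧ ∀ g : LTwo F, (∃ f ∈ hardy E,
    g =ᵐ[(haarAddCircle : Measure Tor)] fun t => Θ t (f t)) → ⟪g, x⟫_ℂ = 0}

/-- The kernel of the operator `θ* : L²(F) → L²(E)`, `h ↦ θ(ζ)* h(ζ)`. -/
def kerStar (Θ : Tor → E →L[ℂ] F) : Set (LTwo F) :=
  {h | ∀ᵐ t ∂(haarAddCircle : Measure Tor), ContinuousLinearMap.adjoint (Θ t) (h t) = 0}

/-- `x = P₊ h`: the vector `x` is the orthogonal projection of `h` to `H²(F)`. -/
def IsRieszProj (h x : LTwo F) : Prop :=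
  x ∈ hardy F ∧ ∀ g ∈ hardy F, ⟪g, h - x⟫_ℂ = 0

/-- `x` is cyclic for `T* = (f ↦ (f - f(0)) / z)` on `K_θ`: with `s n = T*ⁿ x`, the closed linear
span of all `s n` is `K_θ`. -/
def IsCyclicFor (Θ : Tor → E →L[ℂ] F) (x : LTwo F) : Prop :=
  ∃ s : ℕ → LTwo F, s 0 = x ∧
    (∀ n, s (n + 1) =ᵐ[(haarAddCircle : Measure Tor)]
      fun t => fourier (-1) t • (s n t - fourierCoeff (s n) 0)) ∧
    closure (Submodule.span ℂ (Set.range s) : Set (LTwo F)) = modelK Θ

end defs

/-! ### Proof -/

open Pool.Agent.Helper917.Hardy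

section abstractPart

variable {H E F : Type} [NormedAddCommGroup H] [InnerProductSpace ℂ H] [CompleteSpace H]
  [NormedAddCommGroup E] [InnerProductSpace ℂ E] [CompleteSpace E]
  [NormedAddCommGroup F] [InnerProductSpace ℂ F] [CompleteSpace F]
  [SecondCountableTopology E] [SecondCountableTopology F]
  {T : H →L[ℂ] H} {B : F →L[ℂ] H} {C : H →L[ℂ] E} {D : F →L[ℂ] E} {Rb : Circ → E →L[ℂ] H}

lemma isInner (hU : UColl T B C D) (hb : HasBd T C Rb) : IsInner (th T B C D) (Th B D Rb) where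
  analytic := fun z hz => (hU.differentiableAt_th (by simpa using hz)).differentiableWithinAt
  bounded := ⟨1, fun z hz => hU.norm_th_le' (by simpa using hz)⟩
  boundary := by
    filter_upwards [hb.tendsto_th (B := B) (D := D)] with t ht e
    exact ((ContinuousLinearMap.apply ℂ F e).continuous.tendsto _).comp ht
  isometric := hb.norm_Th hU

/-- for nonzero `x` in the model space, the projection of `x` onto the kernel of `θ*` gives a
vector whose Riesz projection is nonzero -/
lemma exists_ne (hU : UColl T B C D) (hb : HasBd T C Rb) (hp : Pure T) (hc : C1 T) {x : L2 F}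
    (hx : x ∈ modelSpace (Th B D Rb)) (hne : x ≠ 0) :
    ∃ h ∈ kerAdj (Th B D Rb), riesz h ≠ 0 := by
  let M : Submodule ℂ (L2 F) := LinearMap.range (MTh hU hb).toLinearMap
  have hiso : Isometry (MTh hU hb) :=
    AddMonoidHomClass.isometry_of_norm (MTh hU hb) (norm_MTh hU hb)
  have hcl : IsClosed (M : Set (L2 F)) := by
    have h1 : (M : Set (L2 F)) = Set.range (MTh hU hb) := rfl
    rw [h1]
    exact hiso.isClosedEmbedding.isClosed_range
  have : CompleteSpace M := hcl.completeSpace_coe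
  set h := x - M.starProjection x with hh
  have horth : ∀ f : L2 E, ⟪MTh hU hb f, h⟫_ℂ = 0 := fun f =>
    (Submodule.mem_orthogonal _ _).1 (M.sub_starProjection_mem_orthogonal x) _ ⟨f, rfl⟩
  have hker : h ∈ kerAdj (Th B D Rb) := by
    have h1 : MThA hU hb h = 0 := by
      apply ext_inner_left ℂ
      intro f
      rw [← inner_MThA, horth, inner_zero_right]
    show ∀ᵐ t ∂mu, _
    filter_upwards [coeFn_MThA hU hb h, Lp.eq_zero_iff_ae_eq_zero.1 h1] with t h2 h3
    rw [← h2, h3]
    rfl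
  refine ⟨h, hker, fun h0 => ?_⟩
  have h1 : ⟪h, x⟫_ℂ = 0 := by
    rw [← inner_riesz_left hx.1, h0, inner_zero_left]
  have h2 : ⟪h, M.starProjection x⟫_ℂ = 0 := by
    obtain ⟨f, hf⟩ := M.starProjection_apply_mem x
    rw [← hf, ← inner_conj_symm]
    have := horth f
    exact (congrArg (starRingEnd ℂ) this).trans (map_zero _)
  have h3 : h = 0 := by
    have : ⟪h, h⟫_ℂ = 0 := by
      conv_lhs => rw [hh]
      rw [← hh, inner_sub_right, h1, h2, sub_zero]
    exact inner_self_eq_zero.1 this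
  rw [hh, sub_eq_zero] at h3
  obtain ⟨f, hf⟩ := M.starProjection_apply_mem x
  have h4 : MTh hU hb f = x := hf.trans h3.symm
  have h5 : f = 0 := by
    apply eq_zero_of_MTh_mem hU hb hp hc
    · intro k hk
      apply ext_inner_left ℂ
      intro e
      rw [inner_zero_right, ← inner_mono, ← inner_MTh hU hb, h4]
      exact hx.2 _ ⟨_, mono_mem_H2 k hk e, coeFn_MTh hU hb _⟩
    · rw [h4]
      exact hx.1
  apply hne
  rw [← h4, h5, map_zero]

end abstractPart

section translate

variable {E F : Type} [NormedAddCommGroup E] [InnerProductSpace ℂ E] [CompleteSpace E]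
  [NormedAddCommGroup F] [InnerProductSpace ℂ F] [CompleteSpace F]

lemma mem_hardy {f : LTwo E} : f ∈ hardy E ↔ f ∈ H2 E := Iff.rfl

lemma isRieszProj_iff {h x : LTwo F} : IsRieszProj h x ↔ x = riesz h := by
  constructor
  · rintro ⟨h1, h2⟩
    have h3 : x - riesz h ∈ H2 F := (H2 F).sub_mem h1 (riesz_mem h)
    have h4 : ⟪x - riesz h, h - x⟫_ℂ = 0 := h2 _ h3
    have h5 : ⟪x - riesz h, h - riesz h⟫_ℂ = 0 := by
      rw [inner_sub_right, inner_riesz_right h3, sub_self]
    have h6 : ⟪x - riesz h, x - riesz h⟫_ℂ = 0 := by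
      have e : x - riesz h = (h - riesz h) - (h - x) := by abel
      calc ⟪x - riesz h, x - riesz h⟫_ℂ = ⟪x - riesz h, (h - riesz h) - (h - x)⟫_ℂ := by
            rw [← e]
        _ = 0 := by rw [inner_sub_right, h5, h4, sub_zero]
    exact sub_eq_zero.1 (inner_self_eq_zero.1 h6)
  · rintro rfl
    refine ⟨riesz_mem h, fun g hg => ?_⟩
    rw [inner_sub_right, inner_riesz_right hg, sub_self]

lemma isCyclicFor_of {Θ : Circ → E →L[ℂ] F} {x : L2 F} (hx : IsCyclicVector Θ x) :
    IsCyclicFor Θ x := by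
  refine ⟨fun n => backShift^[n] x, rfl, fun n => ?_, hx⟩
  simp only [Function.iterate_succ_apply']
  unfold backShift
  have h1 := coeFn_mulC (fourier (-1)) (backShift^[n] x -
    Lp.const 2 mu (fourierCoeff (backShift^[n] x) 0))
  have h2 := Lp.coeFn_sub (backShift^[n] x) (Lp.const 2 mu (fourierCoeff (backShift^[n] x) 0))
  have h3 := Lp.coeFn_const (p := 2) (μ := mu) (fourierCoeff (backShift^[n] x) 0)
  filter_upwards [h1, h2, h3] with t e1 e2 e3
  unfold backShift at e1 e2 e3
  rw [e1, e2, Pi.sub_apply, e3]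
  rfl

end translate

/-- There are separable Hilbert spaces `E`, `F` and an inner `*`-outer `θ ∈ H^∞(E, F)` with
`K_θ ≠ {0}` such that for every `h ∈ Ker θ*` the vector `P₊ h` is zero or cyclic for `T*`;
moreover `P₊ h` is nonzero for some such `h`. -/
theorem result : ∃ (E F : Type) (_ : NormedAddCommGroup E) (_ : InnerProductSpace ℂ E)
    (_ : CompleteSpace E) (_ : TopologicalSpace.SeparableSpace E) (_ : NormedAddCommGroup F)
    (_ : InnerProductSpace ℂ F) (_ : CompleteSpace F) (_ : TopologicalSpace.SeparableSpace F)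
    (θ : ℂ → E →L[ℂ] F) (Θ : Tor → E →L[ℂ] F),
    InnerFun θ Θ ∧ StarOuterFun Θ ∧ (∃ x ∈ modelK Θ, x ≠ 0) ∧
    (∀ h ∈ kerStar Θ, ∀ x, IsRieszProj h x → x = 0 ∨ IsCyclicFor Θ x) ∧
    ∃ h ∈ kerStar Θ, ∃ x, IsRieszProj h x ∧ x ≠ 0 := by
  have hs := sym_phi
  obtain ⟨F, iF1, iF2, iF3, iF4, B, D, hU⟩ := exists_uColl hs.iso
  have hb := hs.hasBd
  have hp := hs.pure
  have hc := hs.c1
  have hne : ∃ x ∈ modelSpace (Th B D (RbS hs)), x ≠ 0 := by
    let one : H2 ℂ := ⟨mono 0 1, mono_mem_H2 0 le_rfl 1⟩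
    refine ⟨obs hU hp one, (mem_modelSpace_iff hU hb hp _).2 ⟨one, rfl⟩, ?_⟩
    intro h0
    have h1 : ‖obs hU hp one‖ = 1 := by
      rw [(obs hU hp).norm_map]
      show ‖(mono 0 1 : L2 ℂ)‖ = 1
      rw [norm_mono, norm_one]
    rw [h0, norm_zero] at h1
    exact zero_ne_one h1
  have hin := isInner hU hb
  refine ⟨L2 ℂ, F, inferInstance, inferInstance, inferInstance, inferInstance, iF1, iF2, iF3,
    inferInstance, th (Tp hs.anal) B (Cp wC) D, Th B D (RbS hs),
    ⟨hin.analytic, hin.bounded, hin.boundary, hin.isometric⟩,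
    starOuter hU hb hp hc, hne, fun h hh x hx => ?_, ?_⟩
  · rw [isRieszProj_iff] at hx
    subst hx
    rcases cyclic_of_orbitProp hU hb hp hs.orbitProp hh with h1 | h1
    · exact Or.inl h1
    · exact Or.inr (isCyclicFor_of h1)
  · obtain ⟨x, hx, hx0⟩ := hne
    obtain ⟨h, hh, hne⟩ := exists_ne hU hb hp hc hx hx0
    exact ⟨h, hh, riesz h, isRieszProj_iff.2 rfl, hne⟩

end Pool.Agent.Results.MP_8b2208_an.Disproof
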